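import Mathlib

/-!
# Project DC: quasiconformal maps of the upper half plane (geometric definition)
-/

open scoped ENNReal UpperHalfPlane
open MeasureTheory Set

namespace Pool.Agent.DC

/-- The extremal distance between the sets `A` and `B` inside `Q` (Ahlfors-Beurling): the
supremum of `L(ρ)² / Area(ρ)` over the Borel functions `ρ ≥ 0` of finite non-zero area, `L(ρ)` the
infimum of the `ρ`-lengths of the Lipschitz paths in `Q` from `A` to `B`. -/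
noncomputable def extDist (Q A B : Set ℂ) : ℝ≥0∞ :=
  ⨆ (ρ : ℂ → ℝ≥0∞) (_ : Measurable ρ) (_ : (∫⁻ z in Q, ρ z ^ 2) ≠ 0) (_ : (∫⁻ z in Q, ρ z ^ 2) ≠ ∞),
    (⨅ (γ : ℝ → ℂ) (_ : (∃ C, LipschitzWith C γ) ∧ (∀ t ∈ Icc (0 : ℝ) 1, γ t ∈ Q) ∧
        γ 0 ∈ A ∧ γ 1 ∈ B),
      ∫⁻ t in Icc (0 : ℝ) 1, ρ (γ t) * ‖deriv γ t‖ₑ) ^ 2 / ∫⁻ z in Q, ρ z ^ 2

/-- The modulus of the quadrilateral `q : [0,1]² → ℍ`: the extremal distance between its left and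
its right side. -/
noncomputable def modulus (q : ℝ × ℝ → ℍ) : ℝ≥0∞ :=
  extDist ((fun p => (q p : ℂ)) '' (Icc (0 : ℝ) 1 ×ˢ Icc (0 : ℝ) 1))
    ((fun p => (q p : ℂ)) '' ({(0 : ℝ)} ×ˢ Icc (0 : ℝ) 1))
    ((fun p => (q p : ℂ)) '' ({(1 : ℝ)} ×ˢ Icc (0 : ℝ) 1))

/-- `f` is `K`-quasiconformal (geometric definition): it increases the moduli of the embedded
closed rectangles at most by the factor `K`. (To be used for homeomorphisms `f`.) -/
def IsQC (K : ℝ) (f : ℍ → ℍ) : Prop :=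
  ∀ q : ℝ × ℝ → ℍ, ContinuousOn q (Icc (0 : ℝ) 1 ×ˢ Icc (0 : ℝ) 1) →
    InjOn q (Icc (0 : ℝ) 1 ×ˢ Icc (0 : ℝ) 1) →
    modulus (fun p => f (q p)) ≤ ENNReal.ofReal K * modulus q

/-- Translation length of a hyperbolic matrix. -/
noncomputable def tl (A : Matrix.SpecialLinearGroup (Fin 2) ℝ) : ℝ :=
  2 * Real.arcosh (|(A : Matrix (Fin 2) (Fin 2) ℝ).trace| / 2)

end Pool.Agent.DC
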