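import Mathlib

/-!
# Project DC: definitions for MP_b05a29_gt

Surfaces, Teichmueller space in Fenchel-Nielsen coordinates, mapping class group,
Teichmueller distance by quasiconformal maps, Riemannian metrics on Teichmueller space.
-/

set_option linter.unusedVariables false

open scoped ENNReal UpperHalfPlane Matrix
open MeasureTheory

namespace Pool.Agent.DC

/-- A pants decomposition of a connected surface of finite type, recorded combinatorially:
`V` pairs of pants, each with three cuffs `(P, i)`; the `d` curves of the decomposition are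
glued from two cuffs `side e false`, `side e true`; the other `n` cuffs are punctures. -/
structure PantsGraph where
  /-- number of pairs of pants -/
  V : ℕ
  /-- number of curves -/
  d : ℕ
  /-- number of punctures -/
  n : ℕ
  /-- the two cuffs glued along the curve `e` -/
  side : Fin d → Bool → Fin V × Fin 3
  /-- the cuffs which are punctures -/
  puncture : Fin n → Fin V × Fin 3
  /-- every cuff is exactly one of these -/
  bij : Function.Bijective
    (Sum.elim (fun p : Fin d × Bool => side p.1 p.2) puncture : (Fin d × Bool) ⊕ Fin n → Fin V × Fin 3)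
  /-- the base pair of pants -/
  base : Fin V
  /-- the surface is connected -/
  conn : ∀ P : Fin V,
    Relation.ReflTransGen (fun Q R => ∃ e b, (side e b).1 = Q ∧ (side e (!b)).1 = R) base P

namespace PantsGraph

variable (G : PantsGraph)

/-- The genus of the surface (first Betti number of the graph). -/
def genus : ℕ := G.d + 1 - G.V

/-- Generators of the path group: a loop around every cuff, a path across every curve. -/
abbrev Gen : Type := (Fin G.V × Fin 3) ⊕ Fin G.d

/-- Relations of the path group: in a pair of pants the product of the three cuffs is `1`; the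
path across the curve `e` conjugates one of the two cuffs of `e` to the inverse of the other. -/
def rels : Set (FreeGroup G.Gen) :=
  {r | (∃ P : Fin G.V, r = FreeGroup.of (Sum.inl (P, 0)) * FreeGroup.of (Sum.inl (P, 1)) *
          FreeGroup.of (Sum.inl (P, 2))) ∨
       (∃ e : Fin G.d, r = FreeGroup.of (Sum.inr e) * FreeGroup.of (Sum.inl (G.side e true)) *
          (FreeGroup.of (Sum.inr e))⁻¹ * FreeGroup.of (Sum.inl (G.side e false)))}

/-- The path group of the graph of groups of the pants decomposition (Serre). -/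
abbrev PathGroup : Type := PresentedGroup G.rels

/-- The loop around a cuff. -/
def cuff (p : Fin G.V × Fin 3) : G.PathGroup := PresentedGroup.of (Sum.inl p)

/-- The path across the curve `e`, from the pants of `side e false` to those of `side e true`. -/
def edge (e : Fin G.d) : G.PathGroup := PresentedGroup.of (Sum.inr e)

/-- `G.IsPath P Q g`: the element `g` is (the class of) a path from the pants `P` to `Q`. -/
inductive IsPath : Fin G.V → Fin G.V → G.PathGroup → Prop
  | refl (P : Fin G.V) : IsPath P P 1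
  | cuff {P Q : Fin G.V} {g : G.PathGroup} (i : Fin 3) :
      IsPath P Q g → IsPath P Q (g * G.cuff (Q, i))
  | cuffInv {P Q : Fin G.V} {g : G.PathGroup} (i : Fin 3) :
      IsPath P Q g → IsPath P Q (g * (G.cuff (Q, i))⁻¹)
  | edge {P : Fin G.V} {g : G.PathGroup} (e : Fin G.d) :
      IsPath P (G.side e false).1 g → IsPath P (G.side e true).1 (g * G.edge e)
  | edgeInv {P : Fin G.V} {g : G.PathGroup} (e : Fin G.d) :
      IsPath P (G.side e true).1 g → IsPath P (G.side e false).1 (g * (G.edge e)⁻¹)

variable {G}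

theorem IsPath.mul {P Q R : Fin G.V} {g h : G.PathGroup} (hg : G.IsPath P Q g)
    (hh : G.IsPath Q R h) : G.IsPath P R (g * h) := by
  induction hh with
  | refl => simpa using hg
  | cuff i _ ih => rw [← mul_assoc]; exact ih.cuff i
  | cuffInv i _ ih => rw [← mul_assoc]; exact ih.cuffInv i
  | edge e _ ih => rw [← mul_assoc]; exact ih.edge e
  | edgeInv e _ ih => rw [← mul_assoc]; exact ih.edgeInv e

theorem IsPath.inv {P Q : Fin G.V} {g : G.PathGroup} (hg : G.IsPath P Q g) :
    G.IsPath Q P g⁻¹ := by
  induction hg with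
  | refl => simpa using IsPath.refl P
  | @cuff Q g i _ ih =>
    rw [mul_inv_rev]
    have h1 : G.IsPath Q Q (1 * (G.cuff (Q, i))⁻¹) := (IsPath.refl Q).cuffInv i
    rw [one_mul] at h1
    exact h1.mul ih
  | @cuffInv Q g i _ ih =>
    rw [mul_inv_rev, inv_inv]
    have h1 : G.IsPath Q Q (1 * (G.cuff (Q, i))) := (IsPath.refl Q).cuff i
    rw [one_mul] at h1
    exact h1.mul ih
  | @edge g e _ ih =>
    rw [mul_inv_rev]
    have h1 : G.IsPath (G.side e true).1 (G.side e false).1 (1 * (G.edge e)⁻¹) :=
      (IsPath.refl _).edgeInv e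
    rw [one_mul] at h1
    exact h1.mul ih
  | @edgeInv g e _ ih =>
    rw [mul_inv_rev, inv_inv]
    have h1 : G.IsPath (G.side e false).1 (G.side e true).1 (1 * (G.edge e)) :=
      (IsPath.refl _).edge e
    rw [one_mul] at h1
    exact h1.mul ih

variable (G)

/-- The fundamental group of the surface: closed paths at the base pants. -/
def pi1 : Subgroup G.PathGroup where
  carrier := {g | G.IsPath G.base G.base g}
  one_mem' := IsPath.refl _
  mul_mem' := fun ha hb => ha.mul hb
  inv_mem' := fun ha => ha.inv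

/-- `γ` is a simple loop around a puncture (in one of the two directions). -/
def IsPeripheral (γ : G.pi1) : Prop :=
  ∃ (j : Fin G.n) (w : G.PathGroup), G.IsPath G.base (G.puncture j).1 w ∧
    ((γ : G.PathGroup) = w * G.cuff (G.puncture j) * w⁻¹ ∨
     (γ : G.PathGroup) = w * (G.cuff (G.puncture j))⁻¹ * w⁻¹)

/-- The automorphisms of the fundamental group which preserve the set of simple loops around
punctures. By the theorem of Dehn, Nielsen and Baer the quotient of this group by the inner
automorphisms is the extended mapping class group of the surface. -/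
def autStar : Subgroup (MulAut G.pi1) where
  carrier := {φ | ∀ γ, G.IsPeripheral (φ γ) ↔ G.IsPeripheral γ}
  one_mem' := fun γ => Iff.rfl
  mul_mem' := fun {a b} ha hb γ => by
    rw [MulAut.mul_apply]
    exact (ha (b γ)).trans (hb γ)
  inv_mem' := fun {a} ha γ => by
    have h := ha (a⁻¹ γ)
    rw [MulAut.apply_inv_self] at h
    exact h.symm

/-- Teichmueller space in Fenchel-Nielsen coordinates: the first `d` coordinates are the
logarithms of the lengths of the curves, the last `d` coordinates are the twists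
(`2 π` is one full Dehn twist). -/
abbrev Teich : Type := EuclideanSpace ℝ (Fin (G.d + G.d))

variable {G}

/-- length of the curve `e` -/
noncomputable def len (x : G.Teich) (e : Fin G.d) : ℝ := Real.exp (x (Fin.castAdd G.d e))

/-- twist along the curve `e`, as a hyperbolic length -/
noncomputable def shift (x : G.Teich) (e : Fin G.d) : ℝ :=
  len x e * x (Fin.natAdd G.d e) / (2 * Real.pi)

end PantsGraph

/-- The hyperbolic isometry `z ↦ exp t * z`. -/
noncomputable def dil (t : ℝ) : Matrix.SpecialLinearGroup (Fin 2) ℝ :=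
  ⟨!![Real.exp (t / 2), 0; 0, Real.exp (-(t / 2))], by
    rw [Matrix.det_fin_two_of, ← Real.exp_add]; simp⟩

/-- The half turn `z ↦ -1 / z`. -/
def turn : Matrix.SpecialLinearGroup (Fin 2) ℝ :=
  ⟨!![0, -1; 1, 0], by simp [Matrix.det_fin_two_of]⟩

theorem dil_coe (t : ℝ) : (dil t : Matrix (Fin 2) (Fin 2) ℝ) =
    !![Real.exp (t / 2), 0; 0, Real.exp (-(t / 2))] := rfl

theorem turn_coe : (turn : Matrix (Fin 2) (Fin 2) ℝ) = !![0, -1; 1, 0] := rfl

namespace PantsGraph

variable {G : PantsGraph}

/-- A hyperbolic structure on the surface with Fenchel-Nielsen coordinates `x`.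

In every pair of pants `P` the matrices `s P 0, s P 1, s P 2` (trace `0`, determinant `-1`) are
the reflections in the three seams, with the sign of the outward unit normal (`outward`), and
positively oriented (`orient`); the seams `i+1` and `i+2` have distance half the length of
the cuff `i` (they are asymptotic if the cuff is a puncture); `s P (i+1) * s P (i+2)` is the
holonomy of the cuff `i`. For a side `(P,i)` of a curve, `N` moves the oriented imaginary axis to the axis of
the cuff `i` and the point `√-1` to its intersection with the seam `i+1`. -/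
structure FN (x : G.Teich) where
  s : Fin G.V → Fin 3 → Matrix (Fin 2) (Fin 2) ℝ
  trace_s : ∀ P i, (s P i).trace = 0
  det_s : ∀ P i, (s P i).det = -1
  gram_side : ∀ e b, (s (G.side e b).1 ((G.side e b).2 + 1) *
    s (G.side e b).1 ((G.side e b).2 + 2)).trace = -2 * Real.cosh (len x e / 2)
  gram_puncture : ∀ j, (s (G.puncture j).1 ((G.puncture j).2 + 1) *
    s (G.puncture j).1 ((G.puncture j).2 + 2)).trace = -2
  orient : ∀ P, 0 < (s P 0 * s P 1 * s P 2).trace
  outward : ∀ P, 0 < (s P 0 + s P 1 + s P 2) 1 0 - (s P 0 + s P 1 + s P 2) 0 1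
  N : Fin G.d → Bool → Matrix.SpecialLinearGroup (Fin 2) ℝ
  N_cuff : ∀ e b, s (G.side e b).1 ((G.side e b).2 + 1) * s (G.side e b).1 ((G.side e b).2 + 2) =
    -((N e b * dil (len x e) * (N e b)⁻¹ : Matrix.SpecialLinearGroup (Fin 2) ℝ) :
      Matrix (Fin 2) (Fin 2) ℝ)
  N_seam : ∀ e b, ∃ ε : ℝ, (ε = 1 ∨ ε = -1) ∧ s (G.side e b).1 ((G.side e b).2 + 1) =
    ε • ((N e b : Matrix (Fin 2) (Fin 2) ℝ) * !![0, 1; 1, 0] *
      (((N e b)⁻¹ : Matrix.SpecialLinearGroup (Fin 2) ℝ) : Matrix (Fin 2) (Fin 2) ℝ))

theorem sq_of_trace_det (A : Matrix (Fin 2) (Fin 2) ℝ) (h0 : A.trace = 0) (h1 : A.det = -1) :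
    A * A = 1 := by
  rw [Matrix.trace_fin_two] at h0
  rw [Matrix.det_fin_two] at h1
  have h2 : A 1 1 = -A 0 0 := by linarith
  rw [h2] at h1
  ext i j
  fin_cases i <;> fin_cases j <;> simp [Matrix.mul_apply, Fin.sum_univ_two, h2] <;> nlinarith

namespace FN

variable {x : G.Teich} (F : FN x)

theorem s_sq (P : Fin G.V) (i : Fin 3) : F.s P i * F.s P i = 1 :=
  sq_of_trace_det _ (F.trace_s P i) (F.det_s P i)

/-- holonomy of a cuff -/
def cuffM (p : Fin G.V × Fin 3) : Matrix.SpecialLinearGroup (Fin 2) ℝ :=
  ⟨F.s p.1 (p.2 + 1) * F.s p.1 (p.2 + 2), by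
    rw [Matrix.det_mul, F.det_s, F.det_s]; norm_num⟩

/-- holonomy of the path across the curve `e` -/
noncomputable def edgeM (e : Fin G.d) : Matrix.SpecialLinearGroup (Fin 2) ℝ :=
  F.N e false * dil (shift x e) * turn * (F.N e true)⁻¹

/-- holonomy of the generators -/
noncomputable def genM : G.Gen → Matrix.SpecialLinearGroup (Fin 2) ℝ :=
  Sum.elim F.cuffM F.edgeM

theorem cuffM_mul (P : Fin G.V) : F.cuffM (P, 0) * F.cuffM (P, 1) * F.cuffM (P, 2) = 1 := by
  apply Subtype.ext
  show (F.s P (0 + 1) * F.s P (0 + 2)) * (F.s P (1 + 1) * F.s P (1 + 2)) *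
    (F.s P (2 + 1) * F.s P (2 + 2)) = 1
  have e1 : (0 + 1 : Fin 3) = 1 := rfl
  have e2 : (0 + 2 : Fin 3) = 2 := rfl
  have e3 : (1 + 1 : Fin 3) = 2 := rfl
  have e4 : (1 + 2 : Fin 3) = 0 := rfl
  have e5 : (2 + 1 : Fin 3) = 0 := rfl
  have e6 : (2 + 2 : Fin 3) = 1 := rfl
  rw [e1, e2, e3, e4, e5, e6]
  calc F.s P 1 * F.s P 2 * (F.s P 2 * F.s P 0) * (F.s P 0 * F.s P 1)
      = F.s P 1 * (F.s P 2 * F.s P 2) * (F.s P 0 * F.s P 0) * F.s P 1 := by
        simp only [Matrix.mul_assoc]
    _ = 1 := by rw [F.s_sq, F.s_sq, Matrix.mul_one, Matrix.mul_one, F.s_sq]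

theorem dil_turn_dil (t l : ℝ) :
    dil t * turn * dil l * turn⁻¹ * (dil t)⁻¹ = (dil l)⁻¹ := by
  have h1 : turn * dil l * turn⁻¹ = (dil l)⁻¹ := by
    apply Subtype.ext
    rw [Matrix.SpecialLinearGroup.coe_mul, Matrix.SpecialLinearGroup.coe_mul,
      Matrix.SpecialLinearGroup.coe_inv, Matrix.SpecialLinearGroup.coe_inv, turn_coe, dil_coe]
    simp [Matrix.adjugate_fin_two]
  have h2 : Commute (dil t) (dil l)⁻¹ := by
    have h3 : Commute (dil t) (dil l) := by
      apply Subtype.ext
      rw [Matrix.SpecialLinearGroup.coe_mul, Matrix.SpecialLinearGroup.coe_mul, dil_coe, dil_coe]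
      simp [mul_comm]
    exact h3.inv_right
  calc dil t * turn * dil l * turn⁻¹ * (dil t)⁻¹
      = dil t * (turn * dil l * turn⁻¹) * (dil t)⁻¹ := by group
    _ = (dil l)⁻¹ := by rw [h1, h2.eq, mul_inv_cancel_right]

theorem edgeM_rel (e : Fin G.d) :
    F.edgeM e * F.cuffM (G.side e true) * (F.edgeM e)⁻¹ * F.cuffM (G.side e false) = 1 := by
  have h1 : ∀ b, F.cuffM (G.side e b) = -(F.N e b * dil (len x e) * (F.N e b)⁻¹) := by
    intro b
    apply Subtype.ext
    rw [Matrix.SpecialLinearGroup.coe_neg]
    exact F.N_cuff e b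
  rw [h1, h1, edgeM]
  have h2 := dil_turn_dil (shift x e) (len x e)
  have h3 : F.N e false * dil (shift x e) * turn * (F.N e true)⁻¹ *
      (F.N e true * dil (len x e) * (F.N e true)⁻¹) *
      (F.N e false * dil (shift x e) * turn * (F.N e true)⁻¹)⁻¹ *
      (F.N e false * dil (len x e) * (F.N e false)⁻¹) = 1 := by
    calc _ = F.N e false * (dil (shift x e) * turn * dil (len x e) * turn⁻¹ *
          (dil (shift x e))⁻¹) * dil (len x e) * (F.N e false)⁻¹ := by group
      _ = 1 := by rw [h2]; group
  rw [mul_neg, mul_neg, neg_mul, neg_mul, neg_neg]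
  exact h3

theorem rels_hold (r : FreeGroup G.Gen) (hr : r ∈ G.rels) : FreeGroup.lift F.genM r = 1 := by
  rcases hr with ⟨P, rfl⟩ | ⟨e, rfl⟩
  · simpa [genM] using F.cuffM_mul P
  · simpa [genM] using F.edgeM_rel e

/-- The holonomy of the hyperbolic structure, on the path group. -/
noncomputable def hol : G.PathGroup →* Matrix.SpecialLinearGroup (Fin 2) ℝ :=
  PresentedGroup.toGroup F.rels_hold

@[simp] theorem hol_cuff (p : Fin G.V × Fin 3) : F.hol (G.cuff p) = F.cuffM p :=
  PresentedGroup.toGroup.of F.rels_hold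

@[simp] theorem hol_edge (e : Fin G.d) : F.hol (G.edge e) = F.edgeM e :=
  PresentedGroup.toGroup.of F.rels_hold

end FN

end PantsGraph

end Pool.Agent.DC
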