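import Pool.Agent.DC.D.TraceClass
import Pool.Agent.DC.Iso.Aut
import Pool.Agent.H96.PS.BDefs

/-!
Project DC (helper6): the fields `disc`, `hyp`, `par` of the Fenchel-Nielsen model, and the
comparison of the two definitions of the automorphisms preserving the peripheral structure.
-/

open scoped ENNReal UpperHalfPlane Matrix ContDiff
open MeasureTheory Set

namespace Pool.Agent.DC

namespace PantsGraph
variable {G : PantsGraph}

namespace FN
variable {x : G.Teich} (F : FN x)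

/-- field `disc` -/
theorem field_disc (hx : ∀ e, len x e ≤ 1) {g n : ℕ} (Φ : SGrp g n ≃* G.pi1) :
    ∃ (z : ℍ) (r : ℝ), 0 < r ∧ ∀ γ : SGrp g n, γ ≠ 1 →
      r ≤ dist z (F.hol ((Φ γ : G.pi1) : G.PathGroup) • z) := by
  obtain ⟨z, r, hr, h⟩ := F.exists_moved hx G.base
  refine ⟨z, r, hr, fun γ hγ => h _ (Φ γ).2 ?_⟩
  intro h1
  exact hγ ((MulEquiv.map_eq_one_iff Φ).1 (Subtype.ext h1))

theorem isPer_of_trace {g n : ℕ} {hn : G.n = n} (Φ : SGrp g n ≃* G.pi1)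
    (hΦ : ∀ j : Fin G.n, ∃ w, G.IsPath G.base (G.puncture j).1 w ∧
      ((Φ (sc (Fin.cast hn j)) : G.pi1) : G.PathGroup) = w * G.cuff (G.puncture j) * w⁻¹)
    (hx : ∀ e, len x e ≤ 1) (γ : SGrp g n)
    (h : (F.hol ((Φ γ : G.pi1) : G.PathGroup) : M2).trace ^ 2 ≤ 4) : PS.IsPer γ := by
  rcases F.trace_class hx G.base _ (Φ γ).2 with h1 | h1 | ⟨j, w, k, hw, h1⟩
  · linarith
  · left
    have h2 : Φ γ = 1 := Subtype.ext h1
    exact (MulEquiv.map_eq_one_iff Φ).1 h2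
  · right
    obtain ⟨w0, hw0, h2⟩ := hΦ j
    have hu : w * w0⁻¹ ∈ G.pi1 := hw.mul hw0.inv
    refine ⟨Fin.cast hn j, k, Φ.symm ⟨w * w0⁻¹, hu⟩, ?_⟩
    apply Φ.injective
    apply Subtype.ext
    rw [h1, map_mul, map_mul, map_inv, map_zpow, MulEquiv.apply_symm_apply, Subgroup.coe_mul,
      Subgroup.coe_mul, Subgroup.coe_inv, Subgroup.coe_zpow, h2]
    show _ = w * w0⁻¹ * (w0 * G.cuff (G.puncture j) * w0⁻¹) ^ k * (w * w0⁻¹)⁻¹
    rw [conj_zpow]
    group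

/-- field `hyp` -/
theorem field_hyp {g n : ℕ} {hn : G.n = n} (Φ : SGrp g n ≃* G.pi1)
    (hΦ : ∀ j : Fin G.n, ∃ w, G.IsPath G.base (G.puncture j).1 w ∧
      ((Φ (sc (Fin.cast hn j)) : G.pi1) : G.PathGroup) = w * G.cuff (G.puncture j) * w⁻¹)
    (hx : ∀ e, len x e ≤ 1) (γ : SGrp g n) (hγ : ¬ PS.IsPer γ) :
    2 < |(F.hol ((Φ γ : G.pi1) : G.PathGroup) : M2).trace| := by
  by_contra hcon
  apply hγ
  apply F.isPer_of_trace Φ hΦ hx γ
  rw [not_lt] at hcon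
  rw [← sq_abs]
  have := abs_nonneg (F.hol ((Φ γ : G.pi1) : G.PathGroup) : M2).trace
  nlinarith

/-- field `par` -/
theorem field_par {g n : ℕ} {hn : G.n = n} (Φ : SGrp g n ≃* G.pi1)
    (hΦ : ∀ j : Fin G.n, ∃ w, G.IsPath G.base (G.puncture j).1 w ∧
      ((Φ (sc (Fin.cast hn j)) : G.pi1) : G.PathGroup) = w * G.cuff (G.puncture j) * w⁻¹)
    (_hx : ∀ e, len x e ≤ 1) (γ : SGrp g n) (hγ : PS.IsPer γ) :
    |(F.hol ((Φ γ : G.pi1) : G.PathGroup) : M2).trace| = 2 := by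
  have key : (F.hol ((Φ γ : G.pi1) : G.PathGroup) : M2).trace ^ 2 = 4 := by
    rcases hγ with rfl | ⟨j, k, w, rfl⟩
    · rw [map_one, Subgroup.coe_one, map_one]
      norm_num [Matrix.trace_fin_two]
    · obtain ⟨j, rfl⟩ : ∃ j' : Fin G.n, j = Fin.cast hn j' := ⟨Fin.cast hn.symm j, rfl⟩
      obtain ⟨w0, hw0, h2⟩ := hΦ j
      have h3 : ((Φ (w * sc (Fin.cast hn j) ^ k * w⁻¹) : G.pi1) : G.PathGroup) =
          (((Φ w : G.pi1) : G.PathGroup) * w0) * G.cuff (G.puncture j) ^ k *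
            (((Φ w : G.pi1) : G.PathGroup) * w0)⁻¹ := by
        rw [map_mul, map_mul, map_inv, map_zpow, Subgroup.coe_mul, Subgroup.coe_mul,
          Subgroup.coe_inv, Subgroup.coe_zpow, h2, conj_zpow]
        group
      rw [h3, F.trace_puncture_pow]
  rw [← sq_abs] at key
  have := abs_nonneg (F.hol ((Φ γ : G.pi1) : G.PathGroup) : M2).trace
  nlinarith

end FN
end PantsGraph

/-- peripheral elements are `1` and the powers of simple loops around punctures -/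
theorem isPer_iff {g n : ℕ} (γ : SGrp g n) :
    PS.IsPer γ ↔ γ = 1 ∨ ∃ (δ : SGrp g n) (k : ℤ), SPeripheral δ ∧ γ = δ ^ k := by
  constructor
  · rintro (rfl | ⟨j, k, w, rfl⟩)
    · exact Or.inl rfl
    · exact Or.inr ⟨w * sc j * w⁻¹, k, ⟨j, w, Or.inl rfl⟩, by rw [conj_zpow]⟩
  · rintro (rfl | ⟨δ, k, ⟨j, w, h | h⟩, rfl⟩)
    · exact Or.inl rfl
    · exact Or.inr ⟨j, k, w, by rw [h, conj_zpow]⟩
    · exact Or.inr ⟨j, -k, w, by rw [h, conj_zpow, inv_zpow, zpow_neg]⟩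

/-- automorphisms which preserve the simple loops around punctures preserve the peripheral
elements -/
theorem sAutStar_le (g n : ℕ) : sAutStar g n ≤ PS.autStar g n := by
  have key : ∀ φ ∈ sAutStar g n, ∀ γ, PS.IsPer γ → PS.IsPer (φ γ) := by
    intro φ hφ γ hγ
    rw [isPer_iff] at hγ ⊢
    rcases hγ with rfl | ⟨δ, k, hδ, rfl⟩
    · exact Or.inl (map_one φ)
    · exact Or.inr ⟨φ δ, k, (hφ δ).2 hδ, map_zpow φ δ k⟩
  intro φ hφ γ
  constructor
  · intro h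
    have := key φ⁻¹ ((sAutStar g n).inv_mem hφ) _ h
    rwa [MulAut.inv_apply_self] at this
  · exact key φ hφ γ

/-- a mapping class of the pants graph, as an automorphism of the standard group -/
theorem congr_symm_mem_autStar {g n : ℕ} {G : PantsGraph} {hn : G.n = n} {Φ : SGrp g n ≃* G.pi1}
    (hΦ : ∀ j : Fin G.n, ∃ w, G.IsPath G.base (G.puncture j).1 w ∧
      ((Φ (sc (Fin.cast hn j)) : G.pi1) : G.PathGroup) = w * G.cuff (G.puncture j) * w⁻¹)
    {φ : MulAut G.pi1} (hφ : φ ∈ G.autStar) : (MulAut.congr Φ).symm φ ∈ PS.autStar g n :=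
  sAutStar_le g n ((Iso.congr_symm_mem_sAutStar_iff hΦ φ).2 hφ)

end Pool.Agent.DC
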