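import Mathlib

/-!
Project DC: the standard presentation of the fundamental group of the surface of genus `g`
with `n` punctures.
-/

namespace Pool.Agent.DC

/-- Generators `a_i`, `b_i` (handles) and `c_j` (punctures). -/
inductive SGen (g n : ℕ) : Type
  | a (i : Fin g) : SGen g n
  | b (i : Fin g) : SGen g n
  | c (j : Fin n) : SGen g n

/-- The relator `∏ a_i b_i a_i⁻¹ b_i⁻¹ * ∏ c_j`. -/
def srel (g n : ℕ) : FreeGroup (SGen g n) :=
  (List.ofFn fun i : Fin g => FreeGroup.of (SGen.a (n := n) i) * FreeGroup.of (SGen.b (n := n) i) *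
      (FreeGroup.of (SGen.a (n := n) i))⁻¹ * (FreeGroup.of (SGen.b (n := n) i))⁻¹).prod *
    (List.ofFn fun j : Fin n => FreeGroup.of (SGen.c (g := g) j)).prod

/-- The fundamental group of the surface of genus `g` with `n` punctures (standard
presentation). -/
abbrev SGrp (g n : ℕ) : Type := PresentedGroup ({srel g n} : Set (FreeGroup (SGen g n)))

/-- the class of `a_i` -/
def sa {g n : ℕ} (i : Fin g) : SGrp g n := PresentedGroup.of (SGen.a i)
/-- the class of `b_i` -/
def sb {g n : ℕ} (i : Fin g) : SGrp g n := PresentedGroup.of (SGen.b i)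
/-- the class of `c_j`, a simple loop around the `j`-th puncture -/
def sc {g n : ℕ} (j : Fin n) : SGrp g n := PresentedGroup.of (SGen.c j)

/-- `γ` is a simple loop around a puncture (in one of the two directions): a conjugate of some
`c_j` or of its inverse. -/
def SPeripheral {g n : ℕ} (γ : SGrp g n) : Prop :=
  ∃ (j : Fin n) (w : SGrp g n), γ = w * sc j * w⁻¹ ∨ γ = w * (sc j)⁻¹ * w⁻¹

/-- The automorphisms of the fundamental group which preserve the set of simple loops around
punctures. By the theorem of Dehn, Nielsen and Baer the quotient of this group by the inner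
automorphisms is the extended mapping class group of the surface. -/
def sAutStar (g n : ℕ) : Subgroup (MulAut (SGrp g n)) where
  carrier := {φ | ∀ γ, SPeripheral (φ γ) ↔ SPeripheral γ}
  one_mem' := fun γ => Iff.rfl
  mul_mem' := fun {a b} ha hb γ => by
    rw [MulAut.mul_apply]
    exact (ha (b γ)).trans (hb γ)
  inv_mem' := fun {a} ha γ => by
    have h := ha (a⁻¹ γ)
    rw [MulAut.apply_inv_self] at h
    exact h.symm

end Pool.Agent.DC
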