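import Pool.Agent.DC.QC
import Pool.Agent.DC.Std

/-!
# Teichmueller space, moduli space and Riemannian metrics (definitions for MP_b05a29_gt)

* `SurfaceGroup g n`: fundamental group of the orientable surface `S` of genus `g` with `n`
  punctures (standard presentation); `IsPer`: its peripheral elements.
* `MCG g n`: the automorphisms of the fundamental group preserving the peripheral elements. By the
  theorem of Dehn, Nielsen and Baer its quotient by the inner automorphisms (which act trivially on
  Teichmueller space) is the extended mapping class group of `S`.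
* `HypStr g n`: marked complete hyperbolic structures of finite area on `S`; `Teich g n`:
  Teichmueller space; `act`: the action of the mapping class group; `len`: length functions.
* `teichDist`: the Teichmueller distance; `IsSmoothChart`: global coordinates of Teichmueller space
  for its standard smooth structure.
* `IsMetric`, `scal`, `Invariant`: Riemannian metrics, scalar curvature, invariance.
* `riemDist`, `qTeichDist`, `qRiemDist`: Riemannian distance and the two distances of `T(S)/Λ`.
-/

open scoped ENNReal UpperHalfPlane ContDiff Matrix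
open MeasureTheory Set
open Pool.Agent.DC (IsQC SGrp sc)

namespace Pool.Agent.Moduli

noncomputable section

variable {g n : ℕ}

/-! ## The surface group and its automorphisms -/

/-- Fundamental group of the orientable surface of genus `g` with `n` punctures: generators
`a_i`, `b_i` (`i < g`) and `c_j` (`j < n`), one relation `∏ [a_i, b_i] ∏ c_j = 1`. -/
def SurfaceGroup (g n : ℕ) : Type := SGrp g n

instance instSurfaceGroup : Group (SurfaceGroup g n) :=
  @id (Group (SGrp g n)) inferInstance

/-- The generator `c_j`, a simple loop around the `j`-th puncture. -/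
def loop (j : Fin n) : SurfaceGroup g n := sc j

/-- Peripheral elements: `1` and the conjugates of the powers of the loops around punctures. -/
def IsPer (γ : SurfaceGroup g n) : Prop :=
  γ = 1 ∨ ∃ (j : Fin n) (k : ℤ) (w : SurfaceGroup g n), γ = w * loop j ^ k * w⁻¹

/-- The automorphism group of the fundamental group. -/
def AutGroup (g n : ℕ) : Type := MulAut (SurfaceGroup g n)

instance instAutGroup : Group (AutGroup g n) :=
  @id (Group (MulAut (SurfaceGroup g n))) inferInstance

/-- The map of an automorphism. -/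
def AutGroup.ap (φ : AutGroup g n) (γ : SurfaceGroup g n) : SurfaceGroup g n :=
  DFunLike.coe (F := MulAut (SurfaceGroup g n)) φ γ

theorem AutGroup.ap_mul (φ ψ : AutGroup g n) (γ : SurfaceGroup g n) :
    (φ * ψ).ap γ = φ.ap (ψ.ap γ) := rfl

theorem AutGroup.ap_inv (φ : AutGroup g n) (γ : SurfaceGroup g n) : φ.ap (φ⁻¹.ap γ) = γ :=
  MulAut.apply_inv_self _ (show MulAut (SurfaceGroup g n) from φ) γ

theorem AutGroup.inv_ap (φ : AutGroup g n) (γ : SurfaceGroup g n) : φ⁻¹.ap (φ.ap γ) = γ :=
  MulAut.inv_apply_self _ (show MulAut (SurfaceGroup g n) from φ) γ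

/-- The automorphisms of the fundamental group which preserve the set of peripheral elements. -/
def autStar (g n : ℕ) : Subgroup (AutGroup g n) where
  carrier := {φ | ∀ γ, IsPer (φ.ap γ) ↔ IsPer γ}
  one_mem' := fun _ => Iff.rfl
  mul_mem' := fun {a b} ha hb γ => (ha (b.ap γ)).trans (hb γ)
  inv_mem' := fun {a} ha γ => by
    have h := ha (a⁻¹.ap γ)
    rw [AutGroup.ap_inv] at h
    exact h.symm

/-- The group of automorphisms of the fundamental group preserving the peripheral elements;
modulo inner automorphisms this is the extended mapping class group of the surface. -/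
def MCG (g n : ℕ) : Type := autStar g n

instance instMCG : Group (MCG g n) := @id (Group (autStar g n)) inferInstance

/-- The map of an element of `MCG g n`. -/
def MCG.ap (φ : MCG g n) (γ : SurfaceGroup g n) : SurfaceGroup g n :=
  AutGroup.ap (Subtype.val (p := fun φ => φ ∈ autStar g n) φ) γ

theorem MCG.per (φ : MCG g n) (γ : SurfaceGroup g n) : IsPer (φ.ap γ) ↔ IsPer γ :=
  Subtype.prop (p := fun φ => φ ∈ autStar g n) φ γ

theorem MCG.inv_ap (φ : MCG g n) (γ : SurfaceGroup g n) : φ⁻¹.ap (φ.ap γ) = γ :=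
  AutGroup.inv_ap _ γ

theorem MCG.ap_inv (φ : MCG g n) (γ : SurfaceGroup g n) : φ.ap (φ⁻¹.ap γ) = γ :=
  AutGroup.ap_inv _ γ

theorem MCG.map_mul (φ : MCG g n) (γ δ : SurfaceGroup g n) : φ.ap (γ * δ) = φ.ap γ * φ.ap δ :=
  _root_.map_mul (show MulAut (SurfaceGroup g n) from
    Subtype.val (p := fun φ => φ ∈ autStar g n) φ) γ δ

theorem MCG.map_one (φ : MCG g n) : φ.ap 1 = 1 :=
  _root_.map_one (show MulAut (SurfaceGroup g n) from
    Subtype.val (p := fun φ => φ ∈ autStar g n) φ)

/-! ## Teichmueller space -/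

/-- Infimal displacement (translation length) of an isometry of the hyperbolic plane. -/
def displ (T : ℍ ≃ᵢ ℍ) : ℝ := ⨅ z : ℍ, dist z (T z)

/-- A marked complete hyperbolic structure of finite area on the surface of genus `g` with `n`
punctures, given by its holonomy: a free properly discontinuous action of the fundamental group on
the hyperbolic plane by orientation preserving isometries, in which precisely the peripheral
elements have infimal displacement `0`. -/
structure HypStr (g n : ℕ) where
  /-- the holonomy -/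
  hol : SurfaceGroup g n → (ℍ ≃ᵢ ℍ)
  /-- it is an action -/
  mul : ∀ γ δ z, hol (γ * δ) z = hol γ (hol δ z)
  /-- orientation preserving -/
  orient : ∀ γ, ∃ A : Matrix.SpecialLinearGroup (Fin 2) ℝ, ∀ z : ℍ, hol γ z = A • z
  /-- the action is free -/
  free : ∀ γ, γ ≠ 1 → ∀ z : ℍ, hol γ z ≠ z
  /-- the action is properly discontinuous -/
  proper : ∀ C : Set ℍ, IsCompact C → {γ | ((fun z => hol γ z) '' C ∩ C).Nonempty}.Finite
  /-- exactly the peripheral elements have infimal displacement `0` -/
  type : ∀ γ, displ (hol γ) = 0 ↔ IsPer γ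

/-- Two marked hyperbolic structures are equivalent if their holonomies are conjugate by an
isometry of the hyperbolic plane. -/
def HypStr.setoid (g n : ℕ) : Setoid (HypStr g n) where
  r := fun ρ σ => ∃ T : ℍ ≃ᵢ ℍ, ∀ γ z, σ.hol γ (T z) = T (ρ.hol γ z)
  iseqv :=
    { refl := fun _ => ⟨IsometryEquiv.refl ℍ, fun _ _ => rfl⟩
      symm := fun {ρ σ} ⟨T, hT⟩ => ⟨T.symm, fun γ z => by
        have h := hT γ (T.symm z)
        rw [T.apply_symm_apply] at h
        rw [h, T.symm_apply_apply]⟩
      trans := fun {ρ σ τ} ⟨T, hT⟩ ⟨U, hU⟩ => ⟨T.trans U, fun γ z => by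
        show τ.hol γ (U (T z)) = U (T (ρ.hol γ z))
        rw [hU, hT]⟩ }

/-- Teichmueller space of the surface of genus `g` with `n` punctures. -/
def Teich (g n : ℕ) : Type := Quotient (HypStr.setoid g n)

/-- The point of Teichmueller space of a marked hyperbolic structure. -/
def HypStr.cls (ρ : HypStr g n) : Teich g n := Quotient.mk (HypStr.setoid g n) ρ

/-- Change of marking. -/
def HypStr.twist (φ : MCG g n) (ρ : HypStr g n) : HypStr g n where
  hol := fun γ => ρ.hol (φ⁻¹.ap γ)
  mul := fun γ δ z => by rw [MCG.map_mul, ρ.mul]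
  orient := fun _ => ρ.orient _
  free := fun γ hγ => ρ.free _ (fun h => hγ (by rw [← MCG.ap_inv φ γ, h, MCG.map_one]))
  proper := fun C hC => ((ρ.proper C hC).image φ.ap).subset
    (fun γ hγ => ⟨φ⁻¹.ap γ, hγ, MCG.ap_inv φ γ⟩)
  type := fun γ => (ρ.type _).trans (MCG.per φ⁻¹ γ)

/-- The action of the mapping class group on Teichmueller space. -/
def act (φ : MCG g n) : Teich g n → Teich g n :=
  Quotient.map' (s₁ := HypStr.setoid g n) (s₂ := HypStr.setoid g n) (HypStr.twist φ)
    (fun _ _ ⟨T, hT⟩ => ⟨T, fun _ => hT _⟩)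

theorem displ_conj {ρ σ : HypStr g n} {T : ℍ ≃ᵢ ℍ}
    (hT : ∀ γ z, σ.hol γ (T z) = T (ρ.hol γ z)) (γ : SurfaceGroup g n) :
    displ (ρ.hol γ) = displ (σ.hol γ) := by
  unfold displ
  rw [← T.toEquiv.iInf_comp (g := fun z => dist z (σ.hol γ z))]
  refine iInf_congr fun z => ?_
  show dist z (ρ.hol γ z) = dist (T z) (σ.hol γ (T z))
  rw [hT, T.isometry.dist_eq]

/-- The length of the geodesic in the free homotopy class of `γ` (`0` for peripheral `γ`). -/
def len (X : Teich g n) (γ : SurfaceGroup g n) : ℝ :=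
  Quotient.lift (s := HypStr.setoid g n) (fun ρ : HypStr g n => displ (ρ.hol γ))
    (fun _ _ ⟨_, hT⟩ => displ_conj hT γ) X

/-- The Teichmueller distance: `½ log K` for the smallest `K` such that there is a
`K`-quasiconformal homeomorphism of the plane compatible with the markings. -/
def teichDist (X Y : Teich g n) : ℝ≥0∞ :=
  ⨅ (K : ℝ) (_ : 1 ≤ K ∧ ∃ (ρ σ : HypStr g n) (f : ℍ ≃ₜ ℍ), ρ.cls = X ∧ σ.cls = Y ∧
      IsQC K f ∧ ∀ γ z, f (ρ.hol γ z) = σ.hol γ (f z)),
    ENNReal.ofReal (Real.log K / 2)

/-! ## Calculus and Riemannian metrics on `ℝ^N` -/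

/-- Euclidean space `ℝ^N`. -/
abbrev E (N : ℕ) := EuclideanSpace ℝ (Fin N)

variable {N : ℕ}

/-- smooth functions -/
def Smooth (f : E N → ℝ) : Prop := ContDiff ℝ ∞ f

/-- directional derivative of a function -/
def dd (f : E N → ℝ) (x v : E N) : ℝ := fderiv ℝ f x v

/-- differential of a map -/
def dmap (F : E N → E N) (x v : E N) : E N := fderiv ℝ F x v

/-- the `i`-th partial derivative -/
def pd (i : Fin N) (f : E N → ℝ) (x : E N) : ℝ := dd f x (EuclideanSpace.single i (1 : ℝ))

/-- Christoffel symbol `Γ^k_{ij}` of the metric `G`. -/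
def chr (G : E N → Matrix (Fin N) (Fin N) ℝ) (x : E N) (i j k : Fin N) : ℝ :=
  (1 / 2 : ℝ) * ∑ l, (G x)⁻¹ k l *
    (pd i (fun y => G y j l) x + pd j (fun y => G y i l) x - pd l (fun y => G y i j) x)

/-- Curvature `(F_{ij})^l_k = ∂_i Γ^l_{jk} - ∂_j Γ^l_{ik} + Γ^l_{im} Γ^m_{jk} - Γ^l_{jm} Γ^m_{ik}`. -/
def curv (G : E N → Matrix (Fin N) (Fin N) ℝ) (x : E N) (i j l k : Fin N) : ℝ :=
  pd i (fun y => chr G y j k l) x - pd j (fun y => chr G y i k l) x
    + ∑ m, (chr G x i m l * chr G x j k m - chr G x j m l * chr G x i k m)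

/-- Scalar curvature `∑_{j,k} G^{jk} ∑_i (F_{ij})^i_k`. -/
def scal (G : E N → Matrix (Fin N) (Fin N) ℝ) (x : E N) : ℝ :=
  ∑ j, ∑ k, (G x)⁻¹ j k * ∑ i, curv G x i j i k

/-- A smooth Riemannian metric on `ℝ^N`, given by its matrix in the standard coordinates. -/
structure IsMetric (G : E N → Matrix (Fin N) (Fin N) ℝ) : Prop where
  smooth : ∀ i j, Smooth (fun x => G x i j)
  posDef : ∀ x, (G x).PosDef

/-- norm of the vector `v` for the metric `G` at `x` -/
def vnorm (G : E N → Matrix (Fin N) (Fin N) ℝ) (x v : E N) : ℝ :=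
  Real.sqrt (∑ i, ∑ j, G x i j * v i * v j)

/-- Length of the curve `γ : [0, 1] → ℝ^N`. -/
def curveLen (h : E N → Matrix (Fin N) (Fin N) ℝ) (γ : ℝ → E N) : ℝ≥0∞ :=
  ∫⁻ t in Icc (0 : ℝ) 1, ENNReal.ofReal (vnorm h (γ t) (derivWithin γ (Icc 0 1) t))

/-- `BrokenPath h p q L`: there is a piecewise `C¹` path of length `L` from `p` to `q`. -/
inductive BrokenPath (h : E N → Matrix (Fin N) (Fin N) ℝ) : E N → E N → ℝ≥0∞ → Prop
  | nil (p : E N) : BrokenPath h p p 0
  | cons (γ : ℝ → E N) (q : E N) (L : ℝ≥0∞) : ContDiffOn ℝ 1 γ (Icc 0 1) →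
      BrokenPath h (γ 1) q L → BrokenPath h (γ 0) q (curveLen h γ + L)

/-- Riemannian distance of the metric `h`. -/
def riemDist (h : E N → Matrix (Fin N) (Fin N) ℝ) (p q : E N) : ℝ≥0∞ :=
  ⨅ (L : ℝ≥0∞) (_ : BrokenPath h p q L), L

/-! ## The smooth structure of Teichmueller space and metrics on finite covers of moduli space -/

/-- The dimension `6 g - 6 + 2 n` of Teichmueller space. -/
def dimT (g n : ℕ) : ℕ := 2 * (3 * g + n - 3)

/-- `cosh (ℓ(γ) / 2)` (half the absolute value of the trace), in the coordinates `Ψ`. -/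
def trc (Ψ : Teich g n ≃ E (dimT g n)) (γ : SurfaceGroup g n) (p : E (dimT g n)) : ℝ :=
  Real.cosh (len (Ψ.symm p) γ / 2)

/-- `Ψ` is a global coordinate system of Teichmueller space with its standard smooth structure:
the functions `cosh (ℓ(γ) / 2)` are smooth, together they are a topological embedding, and they
separate tangent vectors. (Such `Ψ` exist by Fenchel and Nielsen, and any two of them differ by a
diffeomorphism of `ℝ^(6g-6+2n)`.) -/
structure IsSmoothChart (Ψ : Teich g n ≃ E (dimT g n)) : Prop where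
  smooth : ∀ γ, Smooth (trc Ψ γ)
  emb : Topology.IsEmbedding (fun p : E (dimT g n) => fun γ => trc Ψ γ p)
  imm : ∀ p v, (∀ γ, dd (trc Ψ γ) p v = 0) → v = 0

/-- The action of the mapping class group, in the coordinates `Ψ`. -/
def actC (Ψ : Teich g n ≃ E (dimT g n)) (φ : MCG g n) (p : E (dimT g n)) : E (dimT g n) :=
  Ψ (act φ (Ψ.symm p))

/-- The metric `h` on Teichmueller space (in the coordinates `Ψ`) is invariant under `Λ`, i.e. it
is a Riemannian metric on the orbifold `T(S)/Λ`. -/
def Invariant (Ψ : Teich g n ≃ E (dimT g n)) (Λ : Subgroup (MCG g n))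
    (h : E (dimT g n) → Matrix (Fin (dimT g n)) (Fin (dimT g n)) ℝ) : Prop :=
  ∀ φ ∈ Λ, ∀ p v, vnorm h (actC Ψ φ p) (dmap (actC Ψ φ) p v) = vnorm h p v

/-- Distance of the quotient `T(S)/Λ` induced by the Teichmueller distance. -/
def qTeichDist (Λ : Subgroup (MCG g n)) (X Y : Teich g n) : ℝ≥0∞ :=
  ⨅ φ ∈ Λ, teichDist X (act φ Y)

/-- Distance of the quotient `T(S)/Λ` induced by the Riemannian metric `h`. -/
def qRiemDist (Ψ : Teich g n ≃ E (dimT g n)) (Λ : Subgroup (MCG g n))
    (h : E (dimT g n) → Matrix (Fin (dimT g n)) (Fin (dimT g n)) ℝ) (X Y : Teich g n) : ℝ≥0∞ :=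
  ⨅ φ ∈ Λ, riemDist h (Ψ X) (actC Ψ φ (Ψ Y))

end

end Pool.Agent.Moduli
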