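import Pool.Agent.DC.Moduli
import Pool.Agent.H96.PS.Bridge
import Pool.Agent.H96.PS.Model

/-!
# Transfer of the main theorem to the compact definitions of Moduli.lean
-/

open scoped ENNReal UpperHalfPlane ContDiff Matrix
open MeasureTheory Set

namespace Pool.Agent.Moduli

namespace Tr

variable {g n : ℕ}

/-- marked structures: new to old -/
noncomputable def toOld (ρ : HypStr g n) : PS.HypStr g n where
  hol := MonoidHom.mk' (G := ℍ ≃ᵢ ℍ) (M := PS.SurfaceGroup g n) ρ.hol (fun a b => by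
    ext z : 1
    exact ρ.mul a b z)
  orient := ρ.orient
  free := ρ.free
  proper := ρ.proper
  type := ρ.type

/-- marked structures: old to new -/
noncomputable def ofOld (ρ : PS.HypStr g n) : HypStr g n where
  hol := fun γ => ρ.hol γ
  mul := fun γ δ z => DFunLike.congr_fun (map_mul ρ.hol γ δ) z
  orient := ρ.orient
  free := ρ.free
  proper := ρ.proper
  type := ρ.type

theorem toOld_hol (ρ : HypStr g n) (γ : SurfaceGroup g n) (z : ℍ) :
    (toOld ρ).hol γ z = ρ.hol γ z := rfl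

theorem ofOld_toOld (ρ : HypStr g n) : ofOld (toOld ρ) = ρ := rfl

theorem toOld_ofOld (ρ : PS.HypStr g n) : toOld (ofOld ρ) = ρ := rfl

theorem rel_iff (ρ σ : HypStr g n) :
    (HypStr.setoid g n).r ρ σ ↔ (PS.HypStr.setoid g n).r (toOld ρ) (toOld σ) := by
  constructor
  · rintro ⟨T, hT⟩
    refine ⟨T, fun γ => ?_⟩
    ext z : 1
    have h := hT γ (T.symm z)
    rw [T.apply_symm_apply] at h
    exact h
  · rintro ⟨T, hT⟩
    refine ⟨T, fun γ z => ?_⟩
    have h : (toOld σ).hol γ (T z) = (T * (toOld ρ).hol γ * T⁻¹) (T z) := by rw [hT γ]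
    have h2 : (T * (toOld ρ).hol γ * T⁻¹) (T z) = T ((toOld ρ).hol γ (T.symm (T z))) := rfl
    rw [h2, T.symm_apply_apply] at h
    exact h

/-- the equivalence of the two Teichmueller spaces -/
noncomputable def e : Teich g n ≃ PS.Teich g n where
  toFun := Quotient.map' (s₁ := HypStr.setoid g n) (s₂ := PS.HypStr.setoid g n) toOld
    (fun ρ σ h => (rel_iff ρ σ).1 h)
  invFun := Quotient.map' (s₁ := PS.HypStr.setoid g n) (s₂ := HypStr.setoid g n) ofOld
    (fun ρ σ h => (rel_iff (ofOld ρ) (ofOld σ)).2 h)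
  left_inv := fun X => by
    induction X using Quotient.ind
    rfl
  right_inv := fun X => by
    induction X using Quotient.ind
    rfl

theorem e_cls (ρ : HypStr g n) : e ρ.cls = (toOld ρ).cls := rfl

/-- the equivalence of the two groups -/
noncomputable def m : MCG g n ≃* PS.autStar g n where
  toFun := fun φ => ⟨Subtype.val (p := fun φ => φ ∈ autStar g n) φ,
    Subtype.prop (p := fun φ => φ ∈ autStar g n) φ⟩
  invFun := fun φ => ⟨φ.1, φ.2⟩
  left_inv := fun _ => rfl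
  right_inv := fun _ => rfl
  map_mul' := fun _ _ => rfl

theorem e_act (φ : MCG g n) (X : Teich g n) : e (act φ X) = PS.act (m φ) (e X) := by
  induction X using Quotient.ind
  rfl

theorem e_len (X : Teich g n) (γ : SurfaceGroup g n) : PS.len (e X) γ = len X γ := by
  induction X using Quotient.ind
  rfl

theorem e_teichDist (X Y : Teich g n) : PS.teichDist (e X) (e Y) = teichDist X Y := by
  unfold teichDist PS.teichDist
  refine iInf_congr fun K => iInf_congr_Prop ?_ fun _ => rfl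
  refine and_congr_right fun _ => ?_
  constructor
  · rintro ⟨ρ, σ, f, h1, h2, h3, h4⟩
    refine ⟨ofOld ρ, ofOld σ, f, ?_, ?_, h3, h4⟩
    · apply e.injective
      rw [e_cls, toOld_ofOld, h1]
    · apply e.injective
      rw [e_cls, toOld_ofOld, h2]
  · rintro ⟨ρ, σ, f, h1, h2, h3, h4⟩
    refine ⟨toOld ρ, toOld σ, f, ?_, ?_, h3, h4⟩
    · rw [← e_cls, h1]
    · rw [← e_cls, h2]

/-- the chart for the old definitions -/
noncomputable def ch (Ψ : Teich g n ≃ E (dimT g n)) : PS.Teich g n ≃ PS.E (PS.dimT g n) :=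
  e.symm.trans Ψ

theorem ch_e (Ψ : Teich g n ≃ E (dimT g n)) (X : Teich g n) : ch Ψ (e X) = Ψ X := by
  show Ψ (e.symm (e X)) = Ψ X
  rw [Equiv.symm_apply_apply]

theorem ch_symm (Ψ : Teich g n ≃ E (dimT g n)) (p : E (dimT g n)) :
    (ch Ψ).symm p = e (Ψ.symm p) := rfl

theorem ch_trc (Ψ : Teich g n ≃ E (dimT g n)) (γ : SurfaceGroup g n) :
    PS.trc (ch Ψ) γ = trc Ψ γ := by
  funext p
  exact congrArg (fun t => Real.cosh (t / 2)) (e_len (Ψ.symm p) γ)

theorem ch_chart {Ψ : Teich g n ≃ E (dimT g n)} (h : IsSmoothChart Ψ) :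
    PS.IsSmoothChart (ch Ψ) where
  smooth := fun γ => by
    have h1 : Smooth (trc Ψ γ) := h.smooth γ
    rw [← ch_trc Ψ γ] at h1
    exact h1
  emb := by
    have h1 : (fun p : E (dimT g n) => fun γ : SurfaceGroup g n => PS.trc (ch Ψ) γ p) =
        (fun p : E (dimT g n) => fun γ : SurfaceGroup g n => trc Ψ γ p) := by
      funext p γ
      exact congrFun (ch_trc Ψ γ) p
    have h2 := h.emb
    rw [← h1] at h2
    exact h2
  imm := fun p v hv => h.imm p v fun γ => by
    have h1 : dd (PS.trc (ch Ψ) γ) p v = 0 := hv γ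
    rw [ch_trc Ψ γ] at h1
    exact h1

theorem ch_actC (Ψ : Teich g n ≃ E (dimT g n)) (φ : MCG g n) :
    PS.actC (ch Ψ) (m φ) = actC Ψ φ := by
  funext p
  show ch Ψ (PS.act (m φ) (e (Ψ.symm p))) = Ψ (act φ (Ψ.symm p))
  rw [← e_act, ch_e]

variable {N : ℕ}

theorem scal_eq (G : E N → Matrix (Fin N) (Fin N) ℝ) : PS.scal G = scal G := rfl

theorem vnorm_eq (G : E N → Matrix (Fin N) (Fin N) ℝ) : PS.vnorm G = vnorm G := rfl

theorem broken_iff (h : E N → Matrix (Fin N) (Fin N) ℝ) (p q : E N) (L : ℝ≥0∞) :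
    PS.BrokenPath h p q L ↔ BrokenPath h p q L := by
  constructor
  · intro H
    induction H with
    | nil p => exact BrokenPath.nil p
    | cons γ q L hγ _ ih => exact BrokenPath.cons γ q L hγ ih
  · intro H
    induction H with
    | nil p => exact PS.BrokenPath.nil p
    | cons γ q L hγ _ ih => exact PS.BrokenPath.cons γ q L hγ ih

theorem riemDist_eq (h : E N → Matrix (Fin N) (Fin N) ℝ) (p q : E N) :
    PS.riemDist h p q = riemDist h p q := by
  unfold riemDist PS.riemDist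
  exact iInf_congr fun L => iInf_congr_Prop (broken_iff h p q L) fun _ => rfl

theorem iInf_map (Λ : Subgroup (MCG g n)) (F : PS.autStar g n → ℝ≥0∞) :
    (⨅ φ : Λ.map m.toMonoidHom, F φ) = ⨅ φ ∈ Λ, F (m φ) := by
  apply le_antisymm
  · refine le_iInf fun φ => le_iInf fun hφ => ?_
    exact iInf_le (fun ψ : Λ.map m.toMonoidHom => F ψ) ⟨m φ, Subgroup.mem_map_of_mem _ hφ⟩
  · refine le_iInf fun ψ => ?_
    obtain ⟨ψ, φ, hφ, rfl⟩ := ψ
    exact iInf₂_le (f := fun φ (_ : φ ∈ Λ) => F (m φ)) φ hφ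

theorem q_teich (Λ : Subgroup (MCG g n)) (X Y : Teich g n) :
    PS.qTeichDist (Λ.map m.toMonoidHom) (e X) (e Y) = qTeichDist Λ X Y := by
  unfold PS.qTeichDist qTeichDist
  rw [iInf_map Λ (fun φ => PS.teichDist (e X) (PS.act φ (e Y)))]
  refine iInf_congr fun φ => iInf_congr fun _ => ?_
  rw [← e_act, e_teichDist]

theorem q_riem (Ψ : Teich g n ≃ E (dimT g n)) (Λ : Subgroup (MCG g n))
    (h : E (dimT g n) → Matrix (Fin (dimT g n)) (Fin (dimT g n)) ℝ) (X Y : Teich g n) :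
    PS.qRiemDist (ch Ψ) (Λ.map m.toMonoidHom) h (e X) (e Y) = qRiemDist Ψ Λ h X Y := by
  unfold PS.qRiemDist qRiemDist
  refine (iInf_map Λ (fun φ => PS.riemDist (N := PS.dimT g n) h (ch Ψ (e X))
    (PS.actC (ch Ψ) φ (ch Ψ (e Y))))).trans ?_
  refine iInf_congr fun φ => iInf_congr fun _ => ?_
  rw [ch_actC, ch_e, ch_e]
  exact riemDist_eq (N := dimT g n) h _ _

theorem inv_old {Ψ : Teich g n ≃ E (dimT g n)} {Λ : Subgroup (MCG g n)}
    {h : E (dimT g n) → Matrix (Fin (dimT g n)) (Fin (dimT g n)) ℝ} (hi : Invariant Ψ Λ h) :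
    PS.Invariant (ch Ψ) (Λ.map m.toMonoidHom) h := by
  rintro _ ⟨φ, hφ, rfl⟩ p v
  have h1 := hi φ hφ p v
  have h2 : m.toMonoidHom φ = m φ := rfl
  rw [h2, ch_actC]
  exact h1

theorem finite_map (Λ : Subgroup (MCG g n)) (h : Λ.FiniteIndex) :
    (Λ.map m.toMonoidHom).FiniteIndex := by
  constructor
  have h1 := Subgroup.index_map_equiv Λ m
  intro h0
  apply h.index_ne_zero
  rw [← h1]
  exact h0

end Tr

open Tr

theorem main (g n : ℕ) (hgn : 4 ≤ 3 * g + n)
    (Λ : Subgroup (MCG g n)) (hΛ : Λ.FiniteIndex)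
    (Ψ : Teich g n ≃ E (dimT g n)) (hΨ : IsSmoothChart Ψ)
    (h : E (dimT g n) → Matrix (Fin (dimT g n)) (Fin (dimT g n)) ℝ)
    (hh : IsMetric h) (hinv : Invariant Ψ Λ h)
    (c : ℝ) (hc : 0 < c) (hs : ∀ p, c ≤ scal h p) :
    ¬ ∃ K : ℝ, ∀ X Y : Teich g n,
      qTeichDist Λ X Y ≤ ENNReal.ofReal K * qRiemDist Ψ Λ h X Y + ENNReal.ofReal K := by
  rintro ⟨K, hK⟩
  refine PS.main_of_model PS.exists_model g n hgn (Λ.map m.toMonoidHom) (finite_map Λ hΛ) (ch Ψ)
    (ch_chart hΨ) h ⟨fun i j => (hh.smooth i j).contDiffOn, fun x _ => hh.posDef x⟩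
    (inv_old hinv) c hc hs ⟨K, fun X Y => ?_⟩
  obtain ⟨X, rfl⟩ := e.surjective X
  obtain ⟨Y, rfl⟩ := e.surjective Y
  rw [q_teich, q_riem]
  exact hK X Y

end Pool.Agent.Moduli
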